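import Pool.Agent.Lib.MP_4146e4_co.Iterate

/-!
# The colouring theorem for ordered graphs with sparse back-neighbourhoods
-/

namespace Pool.Agent.MP4146e4

open Finset

/-- The constants. -/
noncomputable def B : ℝ := 2 * Real.exp 32

noncomputable def lam : ℝ := 1 / (10 * (B + B ^ 2))

theorem B_pos : 0 < B := by unfold B; positivity

theorem one_le_B : 1 ≤ B := by
  unfold B
  have := Real.one_le_exp (show (0 : ℝ) ≤ 32 by norm_num)
  linarith

theorem lam_pos : 0 < lam := by
  unfold lam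
  have := B_pos
  positivity

theorem lam_mul : lam * (B + B ^ 2) = 1 / 10 := by
  unfold lam
  have := B_pos
  field_simp

theorem inv_le_exp {β : ℝ} (h0 : 0 ≤ β) (h1 : β ≤ 1 / 2) : (1 - β)⁻¹ ≤ Real.exp (2 * β) := by
  have h2 : (1 - β)⁻¹ ≤ 1 + 2 * β := by
    rw [inv_le_iff_one_le_mul₀ (by linarith)]
    nlinarith
  have h3 := Real.add_one_le_exp (2 * β)
  linarith

theorem exp_chord {x s : ℝ} (hs0 : 0 ≤ s) (hs1 : s ≤ 1) :
    Real.exp (s * x) ≤ 1 + s * Real.exp x := by
  have h := convexOn_exp.2 (Set.mem_univ x) (Set.mem_univ 0) hs0 (sub_nonneg.2 hs1)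
    (by ring)
  simp only [smul_eq_mul, mul_zero, add_zero, Real.exp_zero, mul_one] at h
  linarith

/-- The marginal probabilities are at least `3/(2d)`. -/
theorem marginal_ge {N : ℕ → Finset ℕ} (hN : ∀ v, N v ⊆ range v) {d : ℕ} (hd : 2 * B ≤ d) {v : ℕ}
    (hcard : (N v).card ≤ d)
    (hsparse : ((∑ u ∈ N v, (N u ∩ N v).card : ℕ) : ℝ) ≤ Real.exp (-(2 * B)) * (d : ℝ) ^ 2) :
    3 / 2 / d ≤ ex (pr N (2 / d) (B / d)) v (pr N (2 / d) (B / d) v) := by
  have hB := B_pos
  have hB1 := one_le_B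
  have hd0 : (0 : ℝ) < d := by linarith
  have hβ1 : B / d ≤ 1 / 2 := by
    rw [div_le_iff₀ hd0]
    linarith
  have hβ0 : 0 ≤ B / d := by positivity
  have hα0 : 0 < (2 : ℝ) / d := by positivity
  have hratio : B / d / (2 / d) = Real.exp 32 := by
    unfold B
    field_simp
  have hαβ : (2 : ℝ) / d < B / d := by
    apply div_lt_div_of_pos_right _ hd0
    unfold B
    have := Real.add_one_le_exp (32 : ℝ)
    linarith
  have h := pr_ge hN hα0 hαβ hβ1 v
  rw [hratio, Real.log_exp] at h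
  refine le_trans ?_ h
  have hinv : (1 - B / d)⁻¹ ≤ 2 := by
    rw [inv_le_iff_one_le_mul₀ (by linarith)]
    linarith
  have hsum : ∑ u ∈ N v, ((2 : ℝ) / d) ^ 2 * ((1 - B / d)⁻¹) ^ (N u ∩ N v).card ≤
      (2 / d) ^ 2 * (2 * d) := by
    rw [← Finset.mul_sum]
    apply mul_le_mul_of_nonneg_left _ (sq_nonneg _)
    calc ∑ u ∈ N v, ((1 - B / d)⁻¹) ^ (N u ∩ N v).card ≤
        ∑ u ∈ N v, (1 + (N u ∩ N v).card / d * Real.exp (2 * B)) := by
          apply Finset.sum_le_sum
          intro u _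
          have hle : (N u ∩ N v).card ≤ d :=
            (Finset.card_le_card Finset.inter_subset_right).trans hcard
          have hle' : ((N u ∩ N v).card : ℝ) / d ≤ 1 := by
            rw [div_le_one hd0]
            exact_mod_cast hle
          calc ((1 - B / d)⁻¹) ^ (N u ∩ N v).card ≤ (Real.exp (2 * (B / d))) ^ (N u ∩ N v).card :=
                pow_le_pow_left₀ (inv_nonneg.2 (by linarith)) (inv_le_exp hβ0 hβ1) _
            _ = Real.exp ((N u ∩ N v).card / d * (2 * B)) := by
                rw [← Real.exp_nat_mul]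
                congr 1
                ring
            _ ≤ _ := exp_chord (by positivity) hle'
      _ = (N v).card + Real.exp (2 * B) / d * ((∑ u ∈ N v, (N u ∩ N v).card : ℕ) : ℝ) := by
          rw [Finset.sum_add_distrib]
          push_cast
          rw [Finset.mul_sum]
          simp only [Finset.sum_const, nsmul_eq_mul, mul_one]
          congr 1
          apply Finset.sum_congr rfl
          intro u _
          ring
      _ ≤ d + Real.exp (2 * B) / d * (Real.exp (-(2 * B)) * (d : ℝ) ^ 2) := by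
          apply add_le_add
          · exact_mod_cast hcard
          · exact mul_le_mul_of_nonneg_left hsparse (by positivity)
      _ = 2 * d := by
          rw [Real.exp_neg]
          have := Real.exp_pos (2 * B)
          field_simp
          ring
  have hsum0 : 0 ≤ ∑ u ∈ N v, ((2 : ℝ) / d) ^ 2 * ((1 - B / d)⁻¹) ^ (N u ∩ N v).card :=
    Finset.sum_nonneg fun u _ => mul_nonneg (sq_nonneg _)
      (pow_nonneg (inv_nonneg.2 (by linarith)) _)
  have h1 : (1 - B / d)⁻¹ / 32 *
      ∑ u ∈ N v, ((2 : ℝ) / d) ^ 2 * ((1 - B / d)⁻¹) ^ (N u ∩ N v).card ≤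
      2 / 32 * ((2 / d) ^ 2 * (2 * d)) := by
    apply mul_le_mul _ hsum hsum0 (by norm_num)
    linarith
  have h2 : (2 : ℝ) / 32 * ((2 / d) ^ 2 * (2 * d)) = 1 / 2 / d := by
    field_simp
    ring
  have h3 : (3 : ℝ) / 2 / d = 2 / d - 1 / 2 / d := by ring
  rw [h3]
  linarith

/-- The Laplace transform bound used in the iteration. -/
theorem laplace_le {N : ℕ → Finset ℕ} (hN : ∀ v, N v ⊆ range v) {d n : ℕ} (hd : 2 * B ≤ d)
    (hcard : ∀ v, v < n → (N v).card ≤ d)
    (hsparse : ∀ v, v < n →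
      ((∑ u ∈ N v, (N u ∩ N v).card : ℕ) : ℝ) ≤ Real.exp (-(2 * B)) * (d : ℝ) ^ 2)
    {S : Finset ℕ} (hS : S ⊆ range n) (hS1 : S.card ≤ d) (hS2 : 19 / 20 * (d : ℝ) ≤ S.card) :
    ex (pr N (2 / d) (B / d)) n (fun I => Real.exp (-(lam * (I ∩ S).card))) ≤
      Real.exp (-(13 / 10 * lam)) := by
  have hB := B_pos
  have hB1 := one_le_B
  have hl := lam_pos
  have hd0 : (0 : ℝ) < d := by linarith
  have hβ1 : B / d ≤ 1 / 2 := by
    rw [div_le_iff₀ hd0]
    linarith
  have hβ0 : 0 ≤ B / d := by positivity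
  have hα0 : 0 < (2 : ℝ) / d := by positivity
  have h := ex_exp_le (q := pr N (2 / d) (B / d)) (n := n) (β := B / d) (p := 3 / 2 / d)
    (lam := lam) (fun v I => pr_nonneg hN hα0.le hβ0 hβ1 v I) (fun v I => pr_le hβ0 v I)
    (by linarith) hS
    (fun v hv => marginal_ge hN hd (hcard v (mem_range.1 (hS hv)))
      (hsparse v (mem_range.1 (hS hv)))) hl.le
  refine h.trans ?_
  have e1 : (S.card : ℝ) / d ≤ 1 := by
    rw [div_le_one hd0]
    exact_mod_cast hS1
  have e2 : 19 / 20 ≤ (S.card : ℝ) / d := by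
    rw [le_div_iff₀ hd0]
    exact hS2
  have e3 : (S.card : ℝ) * (3 / 2 / d) = 3 / 2 * (S.card / d) := by ring
  have e4 : (S.card : ℝ) * (B / d) + (S.card : ℝ) ^ 2 * (B / d) ^ 2 =
      (S.card / d) * B + (S.card / d) ^ 2 * B ^ 2 := by ring
  have e5 : (S.card : ℝ) / d * B + ((S.card : ℝ) / d) ^ 2 * B ^ 2 ≤ B + B ^ 2 := by
    have e6 : ((S.card : ℝ) / d) ^ 2 ≤ 1 := by
      have : (0 : ℝ) ≤ S.card / d := by positivity
      nlinarith
    nlinarith [sq_nonneg B]
  rw [e3, e4]
  have e7 : lam ^ 2 * ((S.card : ℝ) / d * B + ((S.card : ℝ) / d) ^ 2 * B ^ 2) ≤ lam * (1 / 10) := by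
    calc lam ^ 2 * ((S.card : ℝ) / d * B + ((S.card : ℝ) / d) ^ 2 * B ^ 2) ≤
        lam ^ 2 * (B + B ^ 2) := mul_le_mul_of_nonneg_left e5 (sq_nonneg _)
      _ = lam * (1 / 10) := by rw [sq, mul_assoc, lam_mul]
  have e8 : lam * (19 / 20 * (3 / 2)) ≤ lam * (3 / 2 * (S.card / d)) := by
    apply mul_le_mul_of_nonneg_left _ hl.le
    linarith
  have e9 := Real.add_one_le_exp (-(13 / 10 * lam))
  nlinarith

/-- Ordered graphs with back-degrees at most `d` and sparse back-neighbourhoods on fewer than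
`exp (c d)` vertices are colourable with `d - ⌊d / 400⌋` colours. -/
theorem exists_colouring_of_sparse {N : ℕ → Finset ℕ} (hN : ∀ v, N v ⊆ range v) {d n : ℕ}
    (hd : 2 * B ≤ d) (hd400 : 400 ≤ d) (hcard : ∀ v, v < n → (N v).card ≤ d)
    (hsparse : ∀ v, v < n →
      ((∑ u ∈ N v, (N u ∩ N v).card : ℕ) : ℝ) ≤ Real.exp (-(2 * B)) * (d : ℝ) ^ 2)
    (hn : (n : ℝ) < Real.exp (lam / 400 * d)) :
    ∃ c : ℕ → ℕ, (∀ v, v < n → c v < d - d / 400) ∧ ∀ v, v < n → ∀ x ∈ N v, c x ≠ c v := by
  have hB := B_pos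
  have hl := lam_pos
  have hd0 : (0 : ℝ) < d := by linarith
  have hβ1 : B / d ≤ 1 / 2 := by
    rw [div_le_iff₀ hd0]
    linarith
  have hβ0 : 0 ≤ B / d := by positivity
  have hα0 : 0 < (2 : ℝ) / d := by positivity
  set q := pr N (2 / d) (B / d) with hq
  have hq0 : ∀ v I, 0 ≤ q v I := fun v I => pr_nonneg hN hα0.le hβ0 hβ1 v I
  have hq1 : ∀ v I, q v I ≤ 1 := fun v I => (pr_le hβ0 v I).trans (by linarith)
  have hind : ∀ v I, (∃ x ∈ N v, x ∈ I) → q v I = 0 := by
    rintro v I ⟨x, hx, hxI⟩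
    have : wt N (2 / d) (B / d) v I = 0 := by
      rw [wt_eq hN, Finset.prod_eq_zero hx (by simp [phi, hxI]), mul_zero]
    rw [hq]
    unfold pr
    rw [this, if_pos hβ0]
  set t := d / 400 with ht
  have ht400 : 400 * t ≤ d := Nat.mul_div_le d 400
  have ht800 : d ≤ 800 * t := by omega
  have hsd : 11 * t ≤ d := by omega
  obtain ⟨J, hJ, hJle⟩ := exists_it_le hN hq0 hq1 hind n
    (fun T => ∑ v ∈ range n, cost N (d - 11 * t) v T) (10 * t) ∅
  rw [it_sum] at hJle
  have hbound : ∀ v ∈ range n, it q n (cost N (d - 11 * t) v) (10 * t) ∅ ≤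
      Real.exp (-(2 * lam * t)) := by
    intro v hv
    rw [mem_range] at hv
    have h1 := it_cost_le (q := q) (N := N) hq0 hq1 (d := d) (m := 11 * t) (v := v) (n := n)
      (lam := lam) (c := 13 / 10 * lam) hl.le hsd (hcard v hv) ?_ (10 * t) ∅
    · refine h1.trans (le_of_eq ?_)
      rw [Finset.empty_inter, Finset.card_empty, Nat.cast_zero, sub_zero, ← Real.exp_add]
      congr 1
      push_cast
      ring
    · intro S hS hS'
      apply laplace_le hN hd hcard hsparse
      · intro x hx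
        have := mem_range.1 (hN v (hS hx))
        rw [mem_range]
        omega
      · exact (Finset.card_le_card hS).trans (hcard v hv)
      · have h2 : (400 * t : ℝ) ≤ d := by exact_mod_cast ht400
        have h3 : d ≤ S.card + 11 * t := by omega
        have h4 : (d : ℝ) ≤ S.card + 11 * t := by exact_mod_cast h3
        linarith
  have htot : ∑ v ∈ range n, it q n (cost N (d - 11 * t) v) (10 * t) ∅ < 1 := by
    refine lt_of_le_of_lt (Finset.sum_le_sum hbound) ?_
    rw [Finset.sum_const, card_range, nsmul_eq_mul]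
    have h1 : (n : ℝ) < Real.exp (2 * lam * t) := by
      refine hn.trans_le (Real.exp_le_exp.2 ?_)
      have h2 : (d : ℝ) ≤ 800 * t := by exact_mod_cast ht800
      nlinarith
    rw [Real.exp_neg, ← div_eq_mul_inv, div_lt_one (Real.exp_pos _)]
    exact h1
  rw [Finset.empty_union] at hJle
  have hlt := lt_of_le_of_lt hJle htot
  have hgood : ∀ v, v < n → (N v \ (range (10 * t)).biUnion J).card < d - 11 * t := by
    intro v hv
    by_contra hcon
    push Not at hcon
    have h1 : cost N (d - 11 * t) v ((range (10 * t)).biUnion J) = 1 := by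
      unfold cost
      rw [if_pos hcon]
    have h2 : cost N (d - 11 * t) v ((range (10 * t)).biUnion J) ≤
        ∑ v ∈ range n, cost N (d - 11 * t) v ((range (10 * t)).biUnion J) := by
      apply Finset.single_le_sum (f := fun v => cost N (d - 11 * t) v ((range (10 * t)).biUnion J))
      · intro w _
        unfold cost
        split_ifs <;> norm_num
      · exact mem_range.2 hv
    linarith
  have hfin := exists_colouring hN J hJ hgood
  have e : 10 * t + (d - 11 * t) = d - t := by omega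
  rwa [e] at hfin

end Pool.Agent.MP4146e4
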