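import Pool.Agent.Lib.MP_4146e4_co.Main

/-!
# From degenerate graphs to ordered graphs
-/

namespace Pool.Agent.MP4146e4

open Finset

/-- A degeneracy ordering of a finite vertex set. -/
theorem exists_order {V : Type*} [Finite V] (G : SimpleGraph V) {d : ℕ}
    (h : ∀ s : Set V, s.Nonempty → ∃ v ∈ s, (G.neighborSet v ∩ s).ncard ≤ d) (n : ℕ) :
    ∀ s : Set V, s.ncard = n → ∃ f : V → ℕ, Set.InjOn f s ∧ (∀ v ∈ s, f v < n) ∧
      ∀ v ∈ s, (G.neighborSet v ∩ {u | u ∈ s ∧ f u < f v}).ncard ≤ d := by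
  induction n with
  | zero =>
    intro s hs
    rw [Set.ncard_eq_zero] at hs
    subst hs
    exact ⟨fun _ => 0, by simp, by simp, by simp⟩
  | succ n ih =>
    intro s hs
    have hne : s.Nonempty := by
      rw [← Set.ncard_pos]
      omega
    obtain ⟨v, hv, hvd⟩ := h s hne
    have hs' : (s \ {v}).ncard = n := by
      rw [Set.ncard_sdiff_singleton_of_mem hv, hs]
      rfl
    obtain ⟨f, hf1, hf2, hf3⟩ := ih _ hs'
    classical
    refine ⟨Function.update f v n, ?_, ?_, ?_⟩
    · intro x hx y hy hxy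
      by_cases hxv : x = v <;> by_cases hyv : y = v
      · rw [hxv, hyv]
      · subst hxv
        rw [Function.update_self, Function.update_of_ne hyv] at hxy
        have := hf2 y ⟨hy, hyv⟩
        omega
      · subst hyv
        rw [Function.update_self, Function.update_of_ne hxv] at hxy
        have := hf2 x ⟨hx, hxv⟩
        omega
      · rw [Function.update_of_ne hxv, Function.update_of_ne hyv] at hxy
        exact hf1 ⟨hx, hxv⟩ ⟨hy, hyv⟩ hxy
    · intro x hx
      by_cases hxv : x = v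
      · subst hxv
        rw [Function.update_self]
        omega
      · rw [Function.update_of_ne hxv]
        have := hf2 x ⟨hx, hxv⟩
        omega
    · intro x hx
      by_cases hxv : x = v
      · subst hxv
        refine (Set.ncard_le_ncard ?_ (Set.toFinite _)).trans hvd
        intro u hu
        exact ⟨hu.1, hu.2.1⟩
      · refine (Set.ncard_le_ncard ?_ (Set.toFinite _)).trans (hf3 x ⟨hx, hxv⟩)
        intro u hu
        refine ⟨hu.1, ?_⟩
        have hu2 := hu.2.2
        have hfx := hf2 x ⟨hx, hxv⟩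
        rw [Function.update_of_ne hxv] at hu2
        by_cases huv : u = v
        · subst huv
          rw [Function.update_self] at hu2
          omega
        · rw [Function.update_of_ne huv] at hu2
          exact ⟨⟨hu.2.1, huv⟩, hu2⟩

/-- Degenerate graphs with sparse neighbourhoods and few vertices are `(d - ⌊d/400⌋)`-colourable. -/
theorem colorable_of_sparse {V : Type*} [Fintype V] (G : SimpleGraph V) {d : ℕ}
    (hd : 2 * B ≤ d) (hd400 : 400 ≤ d)
    (hdeg : ∀ s : Set V, s.Nonempty → ∃ v ∈ s, (G.neighborSet v ∩ s).ncard ≤ d)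
    (hsparse : ∀ v : V, ∀ S : Set V, S ⊆ G.neighborSet v → S.ncard ≤ d →
      ({p : V × V | p.1 ∈ S ∧ p.2 ∈ S ∧ G.Adj p.1 p.2}.ncard : ℝ) ≤
        Real.exp (-(2 * B)) * (d : ℝ) ^ 2)
    (hn : (Fintype.card V : ℝ) < Real.exp (lam / 400 * d)) :
    G.Colorable (d - d / 400) := by
  classical
  obtain ⟨f, hf1, hf2, hf3⟩ := exists_order G hdeg (Fintype.card V) Set.univ
    (by rw [Set.ncard_univ, Nat.card_eq_fintype_card])
  have hinj : Function.Injective f := fun x y h => hf1 (Set.mem_univ x) (Set.mem_univ y) h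
  have hlt : ∀ v, f v < Fintype.card V := fun v => hf2 v (Set.mem_univ v)
  set N : ℕ → Finset ℕ := fun i =>
    (range i).filter (fun j => ∃ u v, f u = j ∧ f v = i ∧ G.Adj v u) with hNdef
  have hN : ∀ v, N v ⊆ range v := fun v => Finset.filter_subset _ _
  have hmem : ∀ u v, f u ∈ N (f v) ↔ f u < f v ∧ G.Adj v u := by
    intro u v
    simp only [hNdef, mem_filter, mem_range]
    constructor
    · rintro ⟨h1, u', v', hu, hv, h2⟩
      rw [hinj hu, hinj hv] at h2
      exact ⟨h1, h2⟩
    · rintro ⟨h1, h2⟩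
      exact ⟨h1, u, v, rfl, rfl, h2⟩
  have hNimage : ∀ v, (N (f v) : Set ℕ) = f '' {u | G.Adj v u ∧ f u < f v} := by
    intro v
    ext j
    simp only [Finset.mem_coe, Set.mem_image, Set.mem_ofPred_eq]
    constructor
    · intro hj
      have hj' := hj
      simp only [hNdef, mem_filter, mem_range] at hj'
      obtain ⟨_, u, v', hu, _, _⟩ := hj'
      subst hu
      exact ⟨u, ⟨((hmem u v).1 hj).2, ((hmem u v).1 hj).1⟩, rfl⟩
    · rintro ⟨u, ⟨h1, h2⟩, rfl⟩
      exact (hmem u v).2 ⟨h2, h1⟩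
  have hSd : ∀ v, ({u | G.Adj v u ∧ f u < f v} : Set V).ncard ≤ d := by
    intro v
    refine le_trans (le_of_eq ?_) (hf3 v (Set.mem_univ v))
    congr 1
    ext u
    simp [SimpleGraph.mem_neighborSet]
  have hNempty : ∀ i, (¬ ∃ v, f v = i) → N i = ∅ := by
    intro i hi
    simp only [hNdef]
    apply Finset.filter_eq_empty_iff.2
    rintro j _ ⟨u, v, _, hv, _⟩
    exact hi ⟨v, hv⟩
  have hcard : ∀ i, (N i).card ≤ d := by
    intro i
    by_cases hi : ∃ v, f v = i
    · obtain ⟨v, rfl⟩ := hi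
      rw [← Set.ncard_coe_finset, hNimage, Set.ncard_image_of_injective _ hinj]
      exact hSd v
    · rw [hNempty i hi]
      simp
  have hsp : ∀ i, ((∑ u ∈ N i, (N u ∩ N i).card : ℕ) : ℝ) ≤
      Real.exp (-(2 * B)) * (d : ℝ) ^ 2 := by
    intro i
    by_cases hi : ∃ v, f v = i
    · obtain ⟨v, rfl⟩ := hi
      refine le_trans ?_ (hsparse v {u | G.Adj v u ∧ f u < f v} (fun u hu => hu.1) (hSd v))
      have hle : (∑ u ∈ N (f v), (N u ∩ N (f v)).card : ℕ) ≤
          {p : V × V | p.1 ∈ ({u | G.Adj v u ∧ f u < f v} : Set V) ∧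
            p.2 ∈ ({u | G.Adj v u ∧ f u < f v} : Set V) ∧ G.Adj p.1 p.2}.ncard := by
        rw [← Finset.card_sigma, ← Set.ncard_coe_finset]
        rw [← Set.ncard_image_of_injective _ (f := fun p : V × V => (⟨f p.1, f p.2⟩ : Σ _ : ℕ, ℕ))]
        · apply Set.ncard_le_ncard _ (Set.toFinite _)
          rintro ⟨a, b⟩ hab
          simp only [Finset.mem_coe, mem_sigma, mem_inter] at hab
          obtain ⟨ha, hb1, hb2⟩ := hab
          have ha' : a ∈ (N (f v) : Set ℕ) := ha
          have hb' : b ∈ (N (f v) : Set ℕ) := hb2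
          rw [hNimage] at ha' hb'
          obtain ⟨x, hx, rfl⟩ := ha'
          obtain ⟨y, hy, rfl⟩ := hb'
          exact ⟨(x, y), ⟨hx, hy, ((hmem y x).1 hb1).2⟩, rfl⟩
        · rintro ⟨x, y⟩ ⟨x', y'⟩ h
          simp only [Sigma.mk.injEq, heq_eq_eq] at h
          rw [hinj h.1, hinj h.2]
      exact_mod_cast hle
    · rw [hNempty i hi]
      simp only [Finset.sum_empty, Nat.cast_zero]
      positivity
  obtain ⟨c, hc1, hc2⟩ := exists_colouring_of_sparse hN hd hd400 (n := Fintype.card V)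
    (fun i _ => hcard i) (fun i _ => hsp i) hn
  refine ⟨SimpleGraph.Coloring.mk (fun v => (⟨c (f v), hc1 _ (hlt v)⟩ : Fin (d - d / 400))) ?_⟩
  intro v w hvw he
  rw [Fin.mk.injEq] at he
  rcases lt_trichotomy (f v) (f w) with h | h | h
  · exact hc2 (f w) (hlt w) (f v) ((hmem v w).2 ⟨h, hvw.symm⟩) he
  · exact hvw.ne (hinj h)
  · exact hc2 (f v) (hlt v) (f w) ((hmem w v).2 ⟨h, hvw⟩) he.symm

end Pool.Agent.MP4146e4
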