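import Pool.Agent.Lib.MP_4146e4_co.Moments

/-!
# Independent copies of the random set, and greedy completion of the colouring
-/

namespace Pool.Agent.MP4146e4

open Finset

variable {q : ℕ → Finset ℕ → ℝ}

/-- Expectation of `F (T ∪ I_1 ∪ … ∪ I_k)` for independent copies `I_1, …, I_k`. -/
noncomputable def it (q : ℕ → Finset ℕ → ℝ) (n : ℕ) (F : Finset ℕ → ℝ) : ℕ → Finset ℕ → ℝ
  | 0, T => F T
  | k + 1, T => ex q n fun I => it q n F k (T ∪ I)

theorem it_sum {ι : Type*} (n : ℕ) (s : Finset ι) (F : ι → Finset ℕ → ℝ) (k : ℕ) :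
    ∀ T, it q n (fun T => ∑ i ∈ s, F i T) k T = ∑ i ∈ s, it q n (F i) k T := by
  induction k with
  | zero => intro T; rfl
  | succ k ih =>
    intro T
    simp only [it]
    rw [← ex_sum]
    congr 1
    funext I
    exact ih _

theorem exists_it_le {N : ℕ → Finset ℕ} (hN : ∀ v, N v ⊆ range v) (hq0 : ∀ v I, 0 ≤ q v I)
    (hq1 : ∀ v I, q v I ≤ 1) (hind : ∀ v I, (∃ x ∈ N v, x ∈ I) → q v I = 0) (n : ℕ)
    (F : Finset ℕ → ℝ) (k : ℕ) : ∀ T, ∃ J : ℕ → Finset ℕ, (∀ j, j < k → Indep N (J j)) ∧
      F (T ∪ (range k).biUnion J) ≤ it q n F k T := by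
  induction k with
  | zero =>
    intro T
    refine ⟨fun _ => ∅, fun j hj => absurd hj (Nat.not_lt_zero j), ?_⟩
    simp [it]
  | succ k ih =>
    intro T
    obtain ⟨I, _, hI, hle⟩ := exists_indep_le hN hq0 hq1 hind n (fun I => it q n F k (T ∪ I))
    obtain ⟨J, hJ, hJle⟩ := ih (T ∪ I)
    refine ⟨fun j => if j = k then I else J j, ?_, ?_⟩
    · intro j hj
      by_cases h : j = k
      · simp only [h, if_true]
        exact hI
      · simp only [h, if_false]
        exact hJ j (by omega)
    · have h1 : T ∪ (range (k + 1)).biUnion (fun j => if j = k then I else J j) =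
          T ∪ I ∪ (range k).biUnion J := by
        rw [Finset.range_add_one, Finset.biUnion_insert, if_pos rfl, Finset.union_assoc]
        congr 2
        apply Finset.biUnion_congr rfl
        intro j hj
        rw [if_neg (ne_of_lt (mem_range.1 hj))]
      rw [h1]
      exact hJle.trans hle

/-- Cost of vertex `v` for the coloured set `T`: it is `1` if `v` still has at least `a` uncoloured
back-neighbours. -/
noncomputable def cost (N : ℕ → Finset ℕ) (a v : ℕ) (T : Finset ℕ) : ℝ :=
  if a ≤ (N v \ T).card then 1 else 0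

theorem it_cost_eq_zero (N : ℕ → Finset ℕ) (a v n : ℕ) (k : ℕ) :
    ∀ T, (N v \ T).card < a → it q n (cost N a v) k T = 0 := by
  induction k with
  | zero =>
    intro T hT
    simp only [it, cost]
    rw [if_neg (by omega)]
  | succ k ih =>
    intro T hT
    simp only [it]
    have : ∀ I, it q n (cost N a v) k (T ∪ I) = 0 := by
      intro I
      apply ih
      refine lt_of_le_of_lt (Finset.card_le_card ?_) hT
      exact Finset.sdiff_subset_sdiff (Finset.Subset.refl _) Finset.subset_union_left
    simp only [this]
    exact ex_const n 0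

theorem it_cost_le {N : ℕ → Finset ℕ} (hq0 : ∀ v I, 0 ≤ q v I) (hq1 : ∀ v I, q v I ≤ 1)
    {d m v n : ℕ} {lam c : ℝ} (hlam : 0 ≤ lam) (hm : m ≤ d) (hd : (N v).card ≤ d)
    (hS : ∀ S ⊆ N v, d - m ≤ S.card →
      ex q n (fun I => Real.exp (-(lam * (I ∩ S).card))) ≤ Real.exp (-c)) (k : ℕ) :
    ∀ T, it q n (cost N (d - m) v) k T ≤
      Real.exp (-(c * k)) * Real.exp (lam * (m - (T ∩ N v).card)) := by
  induction k with
  | zero =>
    intro T
    simp only [it, cost]
    split_ifs with h
    · rw [Nat.cast_zero, mul_zero, neg_zero, Real.exp_zero, one_mul]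
      apply Real.one_le_exp
      apply mul_nonneg hlam
      have h1 : (T ∩ N v).card + (N v \ T).card = (N v).card := by
        rw [Finset.inter_comm]
        exact Finset.card_inter_add_card_sdiff _ _
      have h2 : (T ∩ N v).card ≤ m := by omega
      have h3 : ((T ∩ N v).card : ℝ) ≤ m := by exact_mod_cast h2
      linarith
    · positivity
  | succ k ih =>
    intro T
    by_cases h : (N v \ T).card < d - m
    · rw [it_cost_eq_zero N (d - m) v n (k + 1) T h]
      positivity
    · push Not at h
      simp only [it]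
      have h1 : ex q n (fun I => it q n (cost N (d - m) v) k (T ∪ I)) ≤
          ex q n (fun I => Real.exp (-(c * k)) * Real.exp (lam * (m - (T ∩ N v).card)) *
            Real.exp (-(lam * (I ∩ (N v \ T)).card))) := by
        apply ex_mono_aux hq0 hq1
        intro I _
        refine (ih (T ∪ I)).trans (le_of_eq ?_)
        have e1 : ((T ∪ I) ∩ N v).card = (T ∩ N v).card + (I ∩ (N v \ T)).card := by
          rw [← Finset.card_union_of_disjoint]
          · congr 1
            ext x
            simp only [mem_inter, mem_union, mem_sdiff]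
            tauto
          · rw [Finset.disjoint_left]
            intro x hx hx'
            simp only [mem_inter, mem_sdiff] at hx hx'
            exact hx'.2.2 hx.1
        rw [e1, mul_assoc, ← Real.exp_add (lam * (m - (T ∩ N v).card))]
        congr 2
        push_cast
        ring
      refine h1.trans ?_
      rw [ex_smul]
      have h2 := hS (N v \ T) Finset.sdiff_subset h
      calc Real.exp (-(c * k)) * Real.exp (lam * (m - (T ∩ N v).card)) *
            ex q n (fun I => Real.exp (-(lam * (I ∩ (N v \ T)).card))) ≤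
          Real.exp (-(c * k)) * Real.exp (lam * (m - (T ∩ N v).card)) * Real.exp (-c) :=
            mul_le_mul_of_nonneg_left h2 (by positivity)
        _ = _ := by
            rw [mul_comm (Real.exp (-(c * k))), mul_assoc, ← Real.exp_add, mul_comm]
            congr 2
            push_cast
            ring

/-- Greedy colouring of the vertices outside `T`. -/
theorem exists_greedy (N : ℕ → Finset ℕ) (hN : ∀ v, N v ⊆ range v) (T : Finset ℕ) (a : ℕ)
    (n : ℕ) (h : ∀ v, v < n → (N v \ T).card < a) :
    ∃ g : ℕ → ℕ, (∀ v, v < n → g v < a) ∧ ∀ v, v < n → ∀ x ∈ N v \ T, g x ≠ g v := by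
  induction n with
  | zero => exact ⟨fun _ => 0, fun v hv => absurd hv (Nat.not_lt_zero v),
      fun v hv => absurd hv (Nat.not_lt_zero v)⟩
  | succ n ih =>
    obtain ⟨g, hg1, hg2⟩ := ih fun v hv => h v (Nat.lt_succ_of_lt hv)
    have hcard : ((N n \ T).image g).card < (range a).card := by
      rw [card_range]
      exact lt_of_le_of_lt Finset.card_image_le (h n (Nat.lt_succ_self n))
    obtain ⟨b, hb, hb'⟩ := Finset.exists_mem_notMem_of_card_lt_card hcard
    rw [mem_range] at hb
    refine ⟨fun v => if v = n then b else g v, ?_, ?_⟩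
    · intro v hv
      by_cases hvn : v = n
      · simp only [hvn, if_true]
        exact hb
      · simp only [hvn, if_false]
        exact hg1 v (by omega)
    · intro v hv x hx
      have hxv : x < v := mem_range.1 (hN v (mem_sdiff.1 hx).1)
      have hxn : x ≠ n := by omega
      by_cases hvn : v = n
      · subst hvn
        simp only [hxn, if_false, if_true]
        intro he
        apply hb'
        rw [Finset.mem_image]
        exact ⟨x, hx, he⟩
      · simp only [hvn, hxn, if_false]
        exact hg2 v (by omega) x hx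

/-- From `m` independent sets leaving fewer than `a` uncoloured back-neighbours to every vertex
one gets a proper colouring with `m + a` colours. -/
theorem exists_colouring {N : ℕ → Finset ℕ} (hN : ∀ v, N v ⊆ range v) {a m n : ℕ}
    (J : ℕ → Finset ℕ) (hJ : ∀ j, j < m → Indep N (J j))
    (h : ∀ v, v < n → (N v \ (range m).biUnion J).card < a) :
    ∃ c : ℕ → ℕ, (∀ v, v < n → c v < m + a) ∧ ∀ v, v < n → ∀ x ∈ N v, c x ≠ c v := by
  classical
  set T := (range m).biUnion J with hT
  obtain ⟨g, hg1, hg2⟩ := exists_greedy N hN T a n h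
  have hmem : ∀ v, v ∈ T → ∃ j, j < m ∧ v ∈ J j := by
    intro v hv
    rw [hT, mem_biUnion] at hv
    obtain ⟨j, hj, hv⟩ := hv
    exact ⟨j, mem_range.1 hj, hv⟩
  choose! f hf1 hf2 using hmem
  refine ⟨fun v => if v ∈ T then f v else m + g v, ?_, ?_⟩
  · intro v hv
    by_cases hvT : v ∈ T
    · simp only [hvT, if_true]
      have := hf1 v hvT
      omega
    · simp only [hvT, if_false]
      have := hg1 v hv
      omega
  · intro v hv x hx
    by_cases hvT : v ∈ T <;> by_cases hxT : x ∈ T <;> simp only [hvT, hxT, if_true, if_false]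
    · intro he
      have h1 := hf2 v hvT
      have h2 := hf2 x hxT
      rw [he] at h2
      exact hJ (f v) (hf1 v hvT) v h1 x hx h2
    · have := hf1 v hvT
      omega
    · have := hf1 x hxT
      omega
    · have := hg2 v hv x (mem_sdiff.2 ⟨hx, hxT⟩)
      omega

end Pool.Agent.MP4146e4
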