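import Pool.Agent.Lib.MP_4146e4_co.Weights

/-!
# Laplace transform of the number of chosen vertices in a back-neighbourhood
-/

namespace Pool.Agent.MP4146e4

open Finset

variable {q : ℕ → Finset ℕ → ℝ}

/-- Indicator of `u ∈ I`. -/
noncomputable def ind (u : ℕ) (I : Finset ℕ) : ℝ := if u ∈ I then 1 else 0

theorem ind_nonneg (u : ℕ) (I : Finset ℕ) : 0 ≤ ind u I := by
  unfold ind
  split_ifs <;> norm_num

theorem ind_loc (u : ℕ) : Loc (u + 1) (ind u) := by
  intro t ht I
  have : u ≠ t := by omega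
  unfold ind
  simp only [Finset.mem_insert, this, false_or]

theorem ex_ind_mul {u n : ℕ} (hu : u < n) {F : Finset ℕ → ℝ} (hF : Loc u F) :
    ex q n (fun I => ind u I * F I) = ex q u (fun I => q u I * F I) := by
  have h1 : Loc (u + 1) (fun I => ind u I * F I) := (ind_loc u).mul (hF.mono (Nat.le_succ u))
  rw [ex_of_loc (Nat.succ_le_of_lt hu) h1]
  simp only [ex]
  apply ex_congr
  intro I hI
  have hu' : u ∉ I := fun h => by
    have := hI h
    simp at this
  rw [hF u le_rfl]
  simp [ind, hu']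

theorem ex_ind {u n : ℕ} (hu : u < n) : ex q n (ind u) = ex q u (q u) := by
  have := ex_ind_mul (q := q) hu (loc_const u 1)
  simpa using this

theorem card_inter_eq (S I : Finset ℕ) : ((I ∩ S).card : ℝ) = ∑ u ∈ S, ind u I := by
  unfold ind
  rw [Finset.sum_ite_mem, Finset.inter_comm S I]
  simp

theorem exp_neg_le {x : ℝ} (hx : 0 ≤ x) : Real.exp (-x) ≤ 1 - x + x ^ 2 := by
  have h1 : 1 + x ≤ Real.exp x := by
    have := Real.add_one_le_exp x
    linarith
  have h2 : Real.exp (-x) ≤ (1 + x)⁻¹ := by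
    rw [Real.exp_neg]
    exact inv_anti₀ (by linarith) h1
  refine h2.trans ?_
  rw [inv_le_iff_one_le_mul₀ (by linarith)]
  nlinarith [pow_nonneg hx 3]

/-- Laplace transform bound for a process with conditional probabilities at most `β` and
marginals at least `p` on `S`. -/
theorem ex_exp_le {n : ℕ} {β p lam : ℝ} (hq0 : ∀ v I, 0 ≤ q v I) (hqβ : ∀ v I, q v I ≤ β)
    (hβ1 : β ≤ 1) {S : Finset ℕ} (hS : S ⊆ range n)
    (hp : ∀ v ∈ S, p ≤ ex q v (q v)) (hlam : 0 ≤ lam) :
    ex q n (fun I => Real.exp (-(lam * (I ∩ S).card))) ≤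
      1 - lam * (S.card * p) + lam ^ 2 * (S.card * β + S.card ^ 2 * β ^ 2) := by
  have hq1 : ∀ v I, q v I ≤ 1 := fun v I => (hqβ v I).trans hβ1
  have h1 : ex q n (fun I => Real.exp (-(lam * (I ∩ S).card))) ≤
      ex q n (fun I => 1 - lam * (∑ u ∈ S, ind u I) +
        lam ^ 2 * (∑ u ∈ S, ∑ v ∈ S, ind u I * ind v I)) := by
    apply ex_mono_aux hq0 hq1
    intro I _
    rw [card_inter_eq]
    have h2 : 0 ≤ ∑ u ∈ S, ind u I := Finset.sum_nonneg fun u _ => ind_nonneg u I
    refine (exp_neg_le (mul_nonneg hlam h2)).trans (le_of_eq ?_)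
    rw [mul_pow, sq (∑ u ∈ S, ind u I), Finset.sum_mul_sum]
  refine h1.trans ?_
  rw [ex_add, ex_sub, ex_const, ex_smul, ex_smul, ex_sum, ex_sum]
  have h3 : (S.card : ℝ) * p ≤ ∑ u ∈ S, ex q n (ind u) := by
    rw [← nsmul_eq_mul, ← Finset.sum_const]
    apply Finset.sum_le_sum
    intro u hu
    rw [ex_ind (mem_range.1 (hS hu))]
    exact hp u hu
  have hmarg : ∀ u ∈ S, ex q n (ind u) ≤ β := by
    intro u hu
    rw [ex_ind (mem_range.1 (hS hu))]
    calc ex q u (q u) ≤ ex q u (fun _ => β) := ex_mono_aux hq0 hq1 u _ _ (fun I _ => hqβ u I)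
      _ = β := ex_const u β
  have hβ0 : 0 ≤ β := (hq0 0 ∅).trans (hqβ 0 ∅)
  have hpair : ∀ u ∈ S, ∀ v ∈ S, u < v → ex q n (fun I => ind v I * ind u I) ≤ β ^ 2 := by
    intro u hu v hv huv
    have e1 : Loc v (ind u) := (ind_loc u).mono huv
    rw [ex_ind_mul (mem_range.1 (hS hv)) e1]
    have e2 : ex q v (fun I => q v I * ind u I) ≤ ex q v (fun I => β * ind u I) := by
      apply ex_mono_aux hq0 hq1
      intro I _
      exact mul_le_mul_of_nonneg_right (hqβ v I) (ind_nonneg u I)
    refine e2.trans ?_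
    rw [ex_smul, sq]
    apply mul_le_mul_of_nonneg_left _ hβ0
    have e3 := hmarg u hu
    rwa [ex_of_loc (mem_range.1 (hS hv)).le e1] at e3
  have h4 : ∑ u ∈ S, ex q n (fun I => ∑ v ∈ S, ind u I * ind v I) ≤
      S.card * β + S.card ^ 2 * β ^ 2 := by
    have e1 : ∀ u ∈ S, ex q n (fun I => ∑ v ∈ S, ind u I * ind v I) ≤ β + S.card * β ^ 2 := by
      intro u hu
      rw [ex_sum, ← Finset.add_sum_erase _ _ hu]
      apply add_le_add
      · calc ex q n (fun I => ind u I * ind u I) = ex q n (ind u) := by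
              congr 1
              funext I
              unfold ind
              split_ifs <;> norm_num
          _ ≤ β := hmarg u hu
      · calc ∑ v ∈ S.erase u, ex q n (fun I => ind u I * ind v I) ≤
            ∑ _v ∈ S.erase u, β ^ 2 := by
              apply Finset.sum_le_sum
              intro v hv
              rw [Finset.mem_erase] at hv
              rcases lt_or_gt_of_ne hv.1 with h | h
              · exact hpair v hv.2 u hu h
              · have := hpair u hu v hv.2 h
                rwa [show (fun I => ind u I * ind v I) = fun I => ind v I * ind u I from by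
                  funext I; ring]
          _ = (S.erase u).card * β ^ 2 := by rw [Finset.sum_const, nsmul_eq_mul]
          _ ≤ S.card * β ^ 2 := by
              apply mul_le_mul_of_nonneg_right _ (sq_nonneg β)
              exact_mod_cast Finset.card_le_card (Finset.erase_subset _ _)
    calc ∑ u ∈ S, ex q n (fun I => ∑ v ∈ S, ind u I * ind v I) ≤
        ∑ _u ∈ S, (β + S.card * β ^ 2) := Finset.sum_le_sum e1
      _ = _ := by
        rw [Finset.sum_const, nsmul_eq_mul]
        ring
  have h5 := mul_le_mul_of_nonneg_left h3 hlam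
  have h6 := mul_le_mul_of_nonneg_left h4 (sq_nonneg lam)
  linarith

end Pool.Agent.MP4146e4
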