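import Mathlib

/-!
# A sequential random independent set

The vertices are natural numbers; `N v` is the set of back-neighbours of `v` (all smaller than `v`).
The vertices are processed in increasing order; vertex `v` is put into the set with conditional
probability `q v I`, where `I` is the set chosen so far. Expectations are computed by the
operator `ex`.
-/

namespace Pool.Agent.MP4146e4

open Finset

/-- Expectation of `F` of the random set after processing the vertices `0, …, t-1`, where vertex `t`
is included with conditional probability `q t I`. -/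
noncomputable def ex (q : ℕ → Finset ℕ → ℝ) : ℕ → (Finset ℕ → ℝ) → ℝ
  | 0, F => F ∅
  | t + 1, F => ex q t fun I => q t I * F (insert t I) + (1 - q t I) * F I

variable {q : ℕ → Finset ℕ → ℝ}

theorem ex_mono_aux (hq0 : ∀ v I, 0 ≤ q v I) (hq1 : ∀ v I, q v I ≤ 1) (t : ℕ) :
    ∀ F F' : Finset ℕ → ℝ, (∀ I, I ⊆ range t → F I ≤ F' I) → ex q t F ≤ ex q t F' := by
  induction t with
  | zero => intro F F' h; exact h ∅ (by simp)
  | succ t ih =>
    intro F F' h
    apply ih
    intro I hI
    have h1 : insert t I ⊆ range (t + 1) := by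
      intro x hx
      rw [mem_insert] at hx
      rcases hx with rfl | hx
      · simp
      · have := hI hx
        rw [mem_range] at this ⊢
        omega
    have h2 : I ⊆ range (t + 1) := fun x hx => h1 (mem_insert_of_mem hx)
    have h3 := mul_le_mul_of_nonneg_left (h _ h1) (hq0 t I)
    have h4 := mul_le_mul_of_nonneg_left (h _ h2) (sub_nonneg.2 (hq1 t I))
    linarith

theorem ex_congr (t : ℕ) :
    ∀ F F' : Finset ℕ → ℝ, (∀ I, I ⊆ range t → F I = F' I) → ex q t F = ex q t F' := by
  induction t with
  | zero => intro F F' h; exact h ∅ (by simp)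
  | succ t ih =>
    intro F F' h
    apply ih
    intro I hI
    have h1 : insert t I ⊆ range (t + 1) := by
      intro x hx
      rw [mem_insert] at hx
      rcases hx with rfl | hx
      · simp
      · have := hI hx
        rw [mem_range] at this ⊢
        omega
    have h2 : I ⊆ range (t + 1) := fun x hx => h1 (mem_insert_of_mem hx)
    rw [h _ h1, h _ h2]

theorem ex_add (t : ℕ) : ∀ F F' : Finset ℕ → ℝ,
    ex q t (fun I => F I + F' I) = ex q t F + ex q t F' := by
  induction t with
  | zero => intro F F'; rfl
  | succ t ih =>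
    intro F F'
    simp only [ex]
    rw [← ih]
    congr 1
    funext I
    ring

theorem ex_smul (t : ℕ) (c : ℝ) : ∀ F : Finset ℕ → ℝ,
    ex q t (fun I => c * F I) = c * ex q t F := by
  induction t with
  | zero => intro F; rfl
  | succ t ih =>
    intro F
    simp only [ex]
    rw [← ih]
    congr 1
    funext I
    ring

theorem ex_const (t : ℕ) (c : ℝ) : ex q t (fun _ => c) = c := by
  induction t with
  | zero => rfl
  | succ t ih =>
    simp only [ex]
    rw [← ih]
    congr 1
    funext I
    rw [ih]
    ring

theorem ex_sub (t : ℕ) (F F' : Finset ℕ → ℝ) :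
    ex q t (fun I => F I - F' I) = ex q t F - ex q t F' := by
  have h := ex_add (q := q) t F (fun I => (-1) * F' I)
  rw [ex_smul] at h
  rw [show (fun I => F I - F' I) = (fun I => F I + (-1) * F' I) from by funext I; ring, h]
  ring

theorem ex_sum {ι : Type*} (t : ℕ) (s : Finset ι) (F : ι → Finset ℕ → ℝ) :
    ex q t (fun I => ∑ i ∈ s, F i I) = ∑ i ∈ s, ex q t (F i) := by
  classical
  induction s using Finset.induction_on with
  | empty => simpa using ex_const (q := q) t 0
  | insert a s ha ih =>
    rw [Finset.sum_insert ha, ← ih, ← ex_add]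
    congr 1
    funext I
    rw [Finset.sum_insert ha]

/-- `F` only depends on the part of the set below `s`. -/
def Loc (s : ℕ) (F : Finset ℕ → ℝ) : Prop := ∀ t, s ≤ t → ∀ I, F (insert t I) = F I

theorem Loc.mono {s s' : ℕ} (h : s ≤ s') {F : Finset ℕ → ℝ} (hF : Loc s F) : Loc s' F :=
  fun t ht I => hF t (h.trans ht) I

theorem Loc.mul {s : ℕ} {F F' : Finset ℕ → ℝ} (hF : Loc s F) (hF' : Loc s F') :
    Loc s (fun I => F I * F' I) := fun t ht I => by
  show F (insert t I) * F' (insert t I) = F I * F' I
  rw [hF t ht, hF' t ht]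

theorem loc_const (s : ℕ) (c : ℝ) : Loc s (fun _ => c) := fun _ _ _ => rfl

theorem ex_succ_of_loc {t : ℕ} {F : Finset ℕ → ℝ} (hF : Loc t F) : ex q (t + 1) F = ex q t F := by
  simp only [ex]
  congr 1
  funext I
  rw [hF t le_rfl]
  ring

theorem ex_of_loc {s t : ℕ} (h : s ≤ t) {F : Finset ℕ → ℝ} (hF : Loc s F) :
    ex q t F = ex q s F := by
  induction t, h using Nat.le_induction with
  | base => rfl
  | succ t ht ih => rw [ex_succ_of_loc (hF.mono ht), ih]

/-! ### Support on independent sets -/

/-- A set is independent if it contains no back-neighbour of one of its elements. -/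
def Indep (N : ℕ → Finset ℕ) (I : Finset ℕ) : Prop := ∀ v ∈ I, ∀ x ∈ N v, x ∉ I

theorem le_ex_of_indep {N : ℕ → Finset ℕ} (hN : ∀ v, N v ⊆ range v) (hq0 : ∀ v I, 0 ≤ q v I)
    (hq1 : ∀ v I, q v I ≤ 1) (hind : ∀ v I, (∃ x ∈ N v, x ∈ I) → q v I = 0) (c : ℝ) (t : ℕ) :
    ∀ F : Finset ℕ → ℝ, (∀ I, I ⊆ range t → Indep N I → c ≤ F I) → c ≤ ex q t F := by
  induction t with
  | zero =>
    intro F h
    exact h ∅ (by simp) (by intro v hv; simp at hv)
  | succ t ih =>
    intro F h
    apply ih
    intro I hI hind'
    have h1 : insert t I ⊆ range (t + 1) := by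
      intro x hx
      rw [mem_insert] at hx
      rcases hx with rfl | hx
      · simp
      · have := hI hx
        rw [mem_range] at this ⊢
        omega
    have h2 : I ⊆ range (t + 1) := fun x hx => h1 (mem_insert_of_mem hx)
    have hF := h I h2 hind'
    by_cases hx : ∃ x ∈ N t, x ∈ I
    · rw [hind t I hx]
      simpa using hF
    · push Not at hx
      have hind'' : Indep N (insert t I) := by
        intro v hv x hxv hxI
        rw [mem_insert] at hv hxI
        rcases hv with rfl | hv
        · rcases hxI with rfl | hxI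
          · have := hN _ hxv
            simp at this
          · exact hx x hxv hxI
        · rcases hxI with rfl | hxI
          · have h3 := hN _ hxv
            have h4 := hI hv
            rw [mem_range] at h3 h4
            omega
          · exact hind' v hv x hxv hxI
      have hF' := h _ h1 hind''
      have h3 := mul_le_mul_of_nonneg_left hF' (hq0 t I)
      have h4 := mul_le_mul_of_nonneg_left hF (sub_nonneg.2 (hq1 t I))
      linarith

theorem exists_indep_le {N : ℕ → Finset ℕ} (hN : ∀ v, N v ⊆ range v) (hq0 : ∀ v I, 0 ≤ q v I)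
    (hq1 : ∀ v I, q v I ≤ 1) (hind : ∀ v I, (∃ x ∈ N v, x ∈ I) → q v I = 0) (t : ℕ)
    (F : Finset ℕ → ℝ) : ∃ I, I ⊆ range t ∧ Indep N I ∧ F I ≤ ex q t F := by
  classical
  by_contra hcon
  push Not at hcon
  obtain ⟨I₀, hI₀, hmin⟩ := Finset.exists_min_image
    ((range t).powerset.filter fun I => Indep N I) F
    ⟨∅, by rw [mem_filter]; exact ⟨by simp, fun v hv => by simp at hv⟩⟩
  rw [mem_filter, mem_powerset] at hI₀
  have h1 := hcon I₀ hI₀.1 hI₀.2
  have h2 : F I₀ ≤ ex q t F := by
    apply le_ex_of_indep hN hq0 hq1 hind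
    intro I hI hI'
    exact hmin I (by rw [mem_filter, mem_powerset]; exact ⟨hI, hI'⟩)
  linarith

end Pool.Agent.MP4146e4
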