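import Pool.Agent.Lib.MP_4146e4_co.Process

/-!
# The weights of the random independent set and their first two moments
-/

namespace Pool.Agent.MP4146e4

open Finset

/-- The weight of `v` given the chosen set `I`: `α` times the product over the back-neighbours `x`
of `0` (if `x` was chosen) or of the reciprocal of the conditional probability that `x` was not
chosen; the conditional probability of choosing `x` is its weight, cut to `0` above `β`. -/
noncomputable def wt (N : ℕ → Finset ℕ) (α β : ℝ) (v : ℕ) (I : Finset ℕ) : ℝ :=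
  α * ∏ x : Fin v, if (x : ℕ) ∈ N v then
    (if (x : ℕ) ∈ I then 0 else (1 - (if wt N α β x I ≤ β then wt N α β x I else 0))⁻¹) else 1
termination_by v
decreasing_by all_goals exact x.isLt

/-- The conditional probability of choosing `v`. -/
noncomputable def pr (N : ℕ → Finset ℕ) (α β : ℝ) (v : ℕ) (I : Finset ℕ) : ℝ :=
  if wt N α β v I ≤ β then wt N α β v I else 0

/-- The factor of a back-neighbour. -/
noncomputable def phi (N : ℕ → Finset ℕ) (α β : ℝ) (x : ℕ) (I : Finset ℕ) : ℝ :=
  if x ∈ I then 0 else (1 - pr N α β x I)⁻¹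

/-- The weight of `v` restricted to back-neighbours below `t`. -/
noncomputable def wtb (N : ℕ → Finset ℕ) (α β : ℝ) (v t : ℕ) (I : Finset ℕ) : ℝ :=
  α * ∏ x ∈ (N v).filter (· < t), phi N α β x I

variable {N : ℕ → Finset ℕ} {α β : ℝ}

theorem wt_eq (hN : ∀ v, N v ⊆ range v) (v : ℕ) (I : Finset ℕ) :
    wt N α β v I = α * ∏ x ∈ N v, phi N α β x I := by
  rw [wt]
  congr 1
  have h1 : (∏ x ∈ range v, if x ∈ N v then phi N α β x I else 1) = ∏ x ∈ N v, phi N α β x I := by
    rw [Finset.prod_ite_mem, Finset.inter_eq_right.2 (hN v)]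
  rw [← h1, Finset.prod_range]
  apply Finset.prod_congr rfl
  intro x _
  rfl

theorem wtb_self (hN : ∀ v, N v ⊆ range v) (v : ℕ) (I : Finset ℕ) :
    wtb N α β v v I = wt N α β v I := by
  rw [wt_eq hN, wtb, Finset.filter_true_of_mem]
  intro x hx
  exact mem_range.1 (hN v hx)

theorem wtb_zero (v : ℕ) (I : Finset ℕ) : wtb N α β v 0 I = α := by
  simp [wtb]

theorem pr_le (hβ : 0 ≤ β) (v : ℕ) (I : Finset ℕ) : pr N α β v I ≤ β := by
  unfold pr
  split_ifs with h
  · exact h
  · exact hβ

theorem wt_nonneg (hN : ∀ v, N v ⊆ range v) (hα : 0 ≤ α) (hβ : 0 ≤ β) (hβ1 : β ≤ 1 / 2)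
    (v : ℕ) (I : Finset ℕ) : 0 ≤ wt N α β v I := by
  rw [wt_eq hN]
  apply mul_nonneg hα
  apply Finset.prod_nonneg
  intro x _
  unfold phi
  split_ifs
  · exact le_rfl
  · have := pr_le (N := N) (α := α) hβ x I
    rw [inv_nonneg]
    linarith

theorem pr_nonneg (hN : ∀ v, N v ⊆ range v) (hα : 0 ≤ α) (hβ : 0 ≤ β) (hβ1 : β ≤ 1 / 2)
    (v : ℕ) (I : Finset ℕ) : 0 ≤ pr N α β v I := by
  unfold pr
  split_ifs
  · exact wt_nonneg hN hα hβ hβ1 v I
  · exact le_rfl

theorem pr_le_wt (hN : ∀ v, N v ⊆ range v) (hα : 0 ≤ α) (hβ : 0 ≤ β) (hβ1 : β ≤ 1 / 2)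
    (v : ℕ) (I : Finset ℕ) : pr N α β v I ≤ wt N α β v I := by
  unfold pr
  split_ifs
  · exact le_rfl
  · exact wt_nonneg hN hα hβ hβ1 v I

theorem one_sub_pr_pos (hβ : 0 ≤ β) (hβ1 : β ≤ 1 / 2) (v : ℕ) (I : Finset ℕ) :
    0 < 1 - pr N α β v I := by
  have := pr_le (N := N) (α := α) hβ v I
  linarith

theorem phi_nonneg (hβ : 0 ≤ β) (hβ1 : β ≤ 1 / 2) (x : ℕ) (I : Finset ℕ) :
    0 ≤ phi N α β x I := by
  unfold phi
  split_ifs
  · exact le_rfl
  · exact (inv_pos.2 (one_sub_pr_pos hβ hβ1 x I)).le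

theorem wtb_nonneg (hα : 0 ≤ α) (hβ : 0 ≤ β) (hβ1 : β ≤ 1 / 2) (v t : ℕ) (I : Finset ℕ) :
    0 ≤ wtb N α β v t I :=
  mul_nonneg hα (Finset.prod_nonneg fun x _ => phi_nonneg hβ hβ1 x I)

theorem wt_loc (hN : ∀ v, N v ⊆ range v) (v : ℕ) : Loc v (wt N α β v) := by
  induction v using Nat.strong_induction_on with
  | _ v ih =>
    intro t ht I
    rw [wt_eq hN, wt_eq hN]
    congr 1
    apply Finset.prod_congr rfl
    intro x hx
    have hxv := mem_range.1 (hN v hx)
    unfold phi pr
    rw [ih x hxv t (by omega)]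
    have hxt : x ≠ t := by omega
    simp only [Finset.mem_insert, hxt, false_or]

theorem pr_loc (hN : ∀ v, N v ⊆ range v) (v : ℕ) : Loc v (pr N α β v) := by
  intro t ht I
  unfold pr
  rw [wt_loc hN v t ht]

theorem phi_loc (hN : ∀ v, N v ⊆ range v) (x : ℕ) : Loc (x + 1) (phi N α β x) := by
  intro t ht I
  have hxt : x ≠ t := by omega
  unfold phi
  rw [pr_loc hN x t (by omega)]
  simp only [Finset.mem_insert, hxt, false_or]

theorem wtb_loc (hN : ∀ v, N v ⊆ range v) (v t : ℕ) : Loc t (wtb N α β v t) := by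
  intro s hs I
  unfold wtb
  congr 1
  apply Finset.prod_congr rfl
  intro x hx
  rw [Finset.mem_filter] at hx
  exact phi_loc hN x s (by omega) I

theorem wtb_succ (v t : ℕ) (I : Finset ℕ) :
    wtb N α β v (t + 1) I = wtb N α β v t I * (if t ∈ N v then phi N α β t I else 1) := by
  unfold wtb
  by_cases h : t ∈ N v
  · have : (N v).filter (· < t + 1) = insert t ((N v).filter (· < t)) := by
      ext x
      simp only [mem_filter, mem_insert]
      constructor
      · rintro ⟨h1, h2⟩
        rcases Nat.lt_or_ge x t with h3 | h3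
        · exact Or.inr ⟨h1, h3⟩
        · exact Or.inl (by omega)
      · rintro (rfl | ⟨h1, h2⟩)
        · exact ⟨h, by omega⟩
        · exact ⟨h1, by omega⟩
    rw [this, Finset.prod_insert (by simp), if_pos h]
    ring
  · have : (N v).filter (· < t + 1) = (N v).filter (· < t) := by
      ext x
      simp only [mem_filter]
      constructor
      · rintro ⟨h1, h2⟩
        refine ⟨h1, ?_⟩
        rcases Nat.lt_or_ge x t with h3 | h3
        · exact h3
        · exact absurd (by rwa [show x = t from by omega] at h1) h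
      · rintro ⟨h1, h2⟩
        exact ⟨h1, by omega⟩
    rw [this, if_neg h, mul_one]

theorem wtb_succ_insert (hN : ∀ v, N v ⊆ range v) (v t : ℕ) (I : Finset ℕ) :
    wtb N α β v (t + 1) (insert t I) = wtb N α β v t I * (if t ∈ N v then 0 else 1) := by
  rw [wtb_succ, wtb_loc hN v t t le_rfl]
  congr 1
  split_ifs
  · simp [phi]
  · rfl

theorem wtb_succ_notMem (v t : ℕ) (I : Finset ℕ) (hI : t ∉ I) :
    wtb N α β v (t + 1) I =
      wtb N α β v t I * (if t ∈ N v then (1 - pr N α β t I)⁻¹ else 1) := by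
  rw [wtb_succ]
  congr 1
  split_ifs
  · simp [phi, hI]
  · rfl

/-- Martingale property. -/
theorem ex_wtb_succ (hN : ∀ v, N v ⊆ range v) (hβ : 0 ≤ β) (hβ1 : β ≤ 1 / 2) (v t : ℕ)
    {F : Finset ℕ → ℝ} (hF : Loc t F) :
    ex (pr N α β) (t + 1) (fun I => wtb N α β v (t + 1) I * F I) =
      ex (pr N α β) t (fun I => wtb N α β v t I * F I) := by
  simp only [ex]
  apply ex_congr
  intro I hI
  have ht : t ∉ I := fun h => by
    have := hI h
    simp at this
  rw [hF t le_rfl, wtb_succ_insert hN, wtb_succ_notMem v t I ht]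
  have h0 := one_sub_pr_pos (N := N) (α := α) hβ hβ1 t I
  split_ifs
  · field_simp
    ring
  · ring

theorem ex_wtb (hN : ∀ v, N v ⊆ range v) (hβ : 0 ≤ β) (hβ1 : β ≤ 1 / 2) (v : ℕ) {s t : ℕ}
    (h : s ≤ t) {F : Finset ℕ → ℝ} (hF : Loc s F) :
    ex (pr N α β) t (fun I => wtb N α β v t I * F I) =
      ex (pr N α β) s (fun I => wtb N α β v s I * F I) := by
  induction t, h using Nat.le_induction with
  | base => rfl
  | succ t ht ih => rw [ex_wtb_succ hN hβ hβ1 v t (hF.mono ht), ih]

/-- First moment of the weight. -/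
theorem ex_wt (hN : ∀ v, N v ⊆ range v) (hβ : 0 ≤ β) (hβ1 : β ≤ 1 / 2) (v : ℕ) :
    ex (pr N α β) v (wt N α β v) = α := by
  have h := ex_wtb (α := α) hN hβ hβ1 v (Nat.zero_le v) (loc_const 0 1)
  simp only [mul_one] at h
  rw [show (fun I => wtb N α β v v I) = wt N α β v from funext fun I => wtb_self hN v I] at h
  rw [h]
  simp [ex, wtb_zero]

/-- Second moment, one step. -/
theorem ex_wtb_mul_succ (hN : ∀ v, N v ⊆ range v) (hα : 0 ≤ α) (hβ : 0 ≤ β) (hβ1 : β ≤ 1 / 2)
    (u v t : ℕ) :
    ex (pr N α β) (t + 1) (fun I => wtb N α β u (t + 1) I * wtb N α β v (t + 1) I) ≤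
      (if t ∈ N u ∩ N v then (1 - β)⁻¹ else 1) *
        ex (pr N α β) t (fun I => wtb N α β u t I * wtb N α β v t I) := by
  simp only [ex]
  rw [← ex_smul]
  apply ex_mono_aux (fun v I => pr_nonneg hN hα hβ hβ1 v I)
    (fun v I => (pr_le hβ v I).trans (by linarith))
  intro I hI
  have ht : t ∉ I := fun h => by
    have := hI h
    simp at this
  rw [wtb_succ_insert hN, wtb_succ_insert hN, wtb_succ_notMem u t I ht, wtb_succ_notMem v t I ht]
  have h0 := one_sub_pr_pos (N := N) (α := α) hβ hβ1 t I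
  have h1 := mul_nonneg (wtb_nonneg (N := N) hα hβ hβ1 u t I) (wtb_nonneg (N := N) hα hβ hβ1 v t I)
  have h2 := pr_le (N := N) (α := α) hβ t I
  simp only [mem_inter]
  by_cases hu : t ∈ N u <;> by_cases hv : t ∈ N v <;> simp only [hu, hv, if_true, if_false,
    and_self, and_true, and_false, mul_zero, zero_mul, mul_one, one_mul, zero_add]
  · have e1 : (1 - pr N α β t I) * (wtb N α β u t I * (1 - pr N α β t I)⁻¹ *
        (wtb N α β v t I * (1 - pr N α β t I)⁻¹)) =
        (1 - pr N α β t I)⁻¹ * (wtb N α β u t I * wtb N α β v t I) := by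
      field_simp
    rw [e1]
    apply mul_le_mul_of_nonneg_right _ h1
    apply inv_anti₀ (by linarith) (by linarith)
  · apply le_of_eq
    field_simp
  · apply le_of_eq
    field_simp
  · apply le_of_eq
    ring

/-- Second moment. -/
theorem ex_wtb_mul (hN : ∀ v, N v ⊆ range v) (hα : 0 ≤ α) (hβ : 0 ≤ β) (hβ1 : β ≤ 1 / 2)
    (u v t : ℕ) :
    ex (pr N α β) t (fun I => wtb N α β u t I * wtb N α β v t I) ≤
      α ^ 2 * ((1 - β)⁻¹) ^ ((N u ∩ N v).filter (· < t)).card := by
  induction t with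
  | zero =>
    simp only [ex, wtb_zero, Nat.not_lt_zero, Finset.filter_false, Finset.card_empty, pow_zero,
      mul_one]
    apply le_of_eq
    ring
  | succ t ih =>
    refine (ex_wtb_mul_succ hN hα hβ hβ1 u v t).trans ?_
    have hb : (0 : ℝ) < (1 - β)⁻¹ := inv_pos.2 (by linarith)
    by_cases h : t ∈ N u ∩ N v
    · have : (N u ∩ N v).filter (· < t + 1) = insert t ((N u ∩ N v).filter (· < t)) := by
        ext x
        simp only [mem_filter, mem_insert]
        constructor
        · rintro ⟨h1, h2⟩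
          rcases Nat.lt_or_ge x t with h3 | h3
          · exact Or.inr ⟨h1, h3⟩
          · exact Or.inl (by omega)
        · rintro (rfl | ⟨h1, h2⟩)
          · exact ⟨h, by omega⟩
          · exact ⟨h1, by omega⟩
      rw [this, Finset.card_insert_of_notMem (by simp), if_pos h, pow_succ]
      calc (1 - β)⁻¹ * _ ≤ (1 - β)⁻¹ *
            (α ^ 2 * ((1 - β)⁻¹) ^ ((N u ∩ N v).filter (· < t)).card) :=
            mul_le_mul_of_nonneg_left ih hb.le
        _ = _ := by ring
    · have : (N u ∩ N v).filter (· < t + 1) = (N u ∩ N v).filter (· < t) := by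
        ext x
        simp only [mem_filter]
        constructor
        · rintro ⟨h1, h2⟩
          refine ⟨h1, ?_⟩
          rcases Nat.lt_or_ge x t with h3 | h3
          · exact h3
          · exact absurd (by rwa [show x = t from by omega] at h1) h
        · rintro ⟨h1, h2⟩
          exact ⟨h1, by omega⟩
      rw [this, if_neg h, one_mul]
      exact ih

/-- For a back-neighbour `u` of `v`. -/
theorem ex_wt_mul_wt (hN : ∀ v, N v ⊆ range v) (hα : 0 ≤ α) (hβ : 0 ≤ β) (hβ1 : β ≤ 1 / 2)
    {u v : ℕ} (huv : u ∈ N v) :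
    ex (pr N α β) v (fun I => wt N α β v I * wt N α β u I) ≤
      α ^ 2 * ((1 - β)⁻¹) ^ (N u ∩ N v).card := by
  have hlt := mem_range.1 (hN v huv)
  have h1 := ex_wtb (α := α) hN hβ hβ1 v hlt.le (wt_loc (α := α) (β := β) hN u)
  have h2 := ex_wtb_mul hN hα hβ hβ1 u v u
  have h3 : (fun I => wtb N α β v v I * wt N α β u I) = fun I => wt N α β v I * wt N α β u I := by
    funext I
    rw [wtb_self hN]
  have h4 : (fun I => wtb N α β v u I * wt N α β u I) =
      fun I => wtb N α β u u I * wtb N α β v u I := by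
    funext I
    rw [wtb_self hN, mul_comm]
  rw [h3, h4] at h1
  rw [h1]
  have h5 : (N u ∩ N v).filter (· < u) = N u ∩ N v := by
    rw [Finset.filter_true_of_mem]
    intro x hx
    exact mem_range.1 (hN u (mem_inter.1 hx).1)
  rwa [h5] at h2

/-- The probability that `v` is chosen. -/
theorem pr_ge (hN : ∀ v, N v ⊆ range v) (hα : 0 < α) (hαβ : α < β) (hβ1 : β ≤ 1 / 2) (v : ℕ) :
    α - (1 - β)⁻¹ / Real.log (β / α) * ∑ u ∈ N v, α ^ 2 * ((1 - β)⁻¹) ^ (N u ∩ N v).card ≤
      ex (pr N α β) v (pr N α β v) := by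
  have hβ : 0 ≤ β := (hα.trans hαβ).le
  have hL : 0 < Real.log (β / α) := Real.log_pos ((one_lt_div hα).2 hαβ)
  have hb : (0 : ℝ) < (1 - β)⁻¹ := inv_pos.2 (by linarith)
  have key : ∀ I, wt N α β v I - (1 - β)⁻¹ / Real.log (β / α) *
      ∑ u ∈ N v, wt N α β v I * wt N α β u I ≤ pr N α β v I := by
    intro I
    have hw := wt_nonneg (N := N) hN hα.le hβ hβ1 v I
    have hsum : 0 ≤ ∑ u ∈ N v, wt N α β v I * wt N α β u I :=
      Finset.sum_nonneg fun u _ => mul_nonneg hw (wt_nonneg hN hα.le hβ hβ1 u I)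
    have hc : 0 ≤ (1 - β)⁻¹ / Real.log (β / α) := div_nonneg hb.le hL.le
    by_cases h : wt N α β v I ≤ β
    · unfold pr
      rw [if_pos h]
      have := mul_nonneg hc hsum
      linarith
    · have hpr : pr N α β v I = 0 := by
        unfold pr
        rw [if_neg h]
      rw [hpr]
      push Not at h
      have hwpos : 0 < wt N α β v I := lt_of_le_of_lt hβ h
      -- no back-neighbour is chosen
      have hnot : ∀ x ∈ N v, x ∉ I := by
        intro x hx hxI
        rw [wt_eq hN, Finset.prod_eq_zero hx (by simp [phi, hxI]), mul_zero] at hwpos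
        exact lt_irrefl _ hwpos
      have hlog : Real.log (β / α) < ∑ x ∈ N v, (1 - β)⁻¹ * wt N α β x I := by
        have e1 : wt N α β v I / α = ∏ x ∈ N v, (1 - pr N α β x I)⁻¹ := by
          rw [wt_eq hN, mul_div_assoc, mul_comm, div_mul_cancel₀ _ hα.ne']
          apply Finset.prod_congr rfl
          intro x hx
          simp [phi, hnot x hx]
        have e2 : Real.log (β / α) < Real.log (wt N α β v I / α) := by
          apply Real.log_lt_log (div_pos (hα.trans hαβ) hα)
          exact div_lt_div_of_pos_right h hα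
        rw [e1, Real.log_prod (fun x hx =>
          (inv_pos.2 (one_sub_pr_pos (N := N) (α := α) hβ hβ1 x I)).ne')] at e2
        refine e2.trans_le (Finset.sum_le_sum fun x hx => ?_)
        have h0 := one_sub_pr_pos (N := N) (α := α) hβ hβ1 x I
        have h1 := pr_le (N := N) (α := α) hβ x I
        have h2 := pr_nonneg hN hα.le hβ hβ1 x I
        have h3 := pr_le_wt hN hα.le hβ hβ1 x I
        calc Real.log (1 - pr N α β x I)⁻¹ ≤ (1 - pr N α β x I)⁻¹ - 1 :=
              Real.log_le_sub_one_of_pos (inv_pos.2 h0)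
          _ = (1 - pr N α β x I)⁻¹ * pr N α β x I := by field_simp; ring
          _ ≤ (1 - β)⁻¹ * wt N α β x I :=
              mul_le_mul (inv_anti₀ (by linarith) (by linarith)) h3 h2 hb.le
      have h5 : wt N α β v I * Real.log (β / α) ≤
          (1 - β)⁻¹ * ∑ u ∈ N v, wt N α β v I * wt N α β u I := by
        calc wt N α β v I * Real.log (β / α) ≤
            wt N α β v I * ∑ x ∈ N v, (1 - β)⁻¹ * wt N α β x I :=
              mul_le_mul_of_nonneg_left hlog.le hw
          _ = _ := by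
              rw [Finset.mul_sum, Finset.mul_sum]
              apply Finset.sum_congr rfl
              intro x _
              ring
      have h6 : wt N α β v I ≤ (1 - β)⁻¹ / Real.log (β / α) *
          ∑ u ∈ N v, wt N α β v I * wt N α β u I := by
        rw [div_mul_eq_mul_div, le_div_iff₀ hL]
        exact h5
      linarith
  have h1 : ex (pr N α β) v (fun I => wt N α β v I - (1 - β)⁻¹ / Real.log (β / α) *
      ∑ u ∈ N v, wt N α β v I * wt N α β u I) ≤ ex (pr N α β) v (pr N α β v) :=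
    ex_mono_aux (fun v I => pr_nonneg hN hα.le hβ hβ1 v I)
      (fun v I => (pr_le hβ v I).trans (by linarith)) v _ _ (fun I _ => key I)
  rw [ex_sub, ex_smul, ex_sum] at h1
  have e0 : ex (pr N α β) v (fun I => wt N α β v I) = α := ex_wt hN hβ hβ1 v
  rw [e0] at h1
  refine le_trans ?_ h1
  apply sub_le_sub_left
  apply mul_le_mul_of_nonneg_left _ (div_nonneg hb.le hL.le)
  exact Finset.sum_le_sum fun u hu => ex_wt_mul_wt hN hα.le hβ hβ1 hu

end Pool.Agent.MP4146e4
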